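import Pool.Agent.TH693.CT.Stm
set_option autoImplicit false

namespace Pool.Agent.TH808.CT

open Finset

open Pool.Agent.TH693.CT

theorem cop_b {a b D : ℤ} (h : a ^ 2 - 2 * b ^ 2 = D) (hg : Int.gcd a b = 1) : IsCoprime b D := by
  have h1 : IsCoprime a b := Int.isCoprime_iff_gcd_eq_one.2 hg
  have h2 : IsCoprime b (a ^ 2) := (h1.pow_left).symm
  have h3 : IsCoprime b (a ^ 2 + b * (-2 * b)) := h2.add_mul_left_right _
  have : a ^ 2 + b * (-2 * b) = D := by rw [← h]; ring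
  rwa [this] at h3

/-- the quotient of `D` by `gcd(e, D)` divides `f` if `D` divides `e f` -/
theorem quo_dvd {D e f g h : ℤ} (hD : D ≠ 0) (hef : D ∣ e * f) (hg : g = (Int.gcd e D : ℤ))
    (hgh : D = g * h) : h ∣ f := by
  have hg0 : g ≠ 0 := by
    rintro rfl
    exact hD (by rw [hgh]; ring)
  have hb : g = e * Int.gcdA e D + D * Int.gcdB e D := by
    rw [hg]; exact Int.gcd_eq_gcd_ab e D
  have h1 : D ∣ g * f := by
    have : g * f = (e * f) * Int.gcdA e D + D * (Int.gcdB e D * f) := by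
      linear_combination f * hb
    rw [this]
    exact dvd_add (hef.mul_right _) (dvd_mul_right _ _)
  have h2 : g * h ∣ g * f := by rw [← hgh]; exact h1
  exact (mul_dvd_mul_iff_left hg0).1 h2

theorem cop_gh {D a b a0 b0 g h : ℤ} (hD : Odd D) (hD0 : D ≠ 0)
    (hab : a ^ 2 - 2 * b ^ 2 = D) (hb : IsCoprime b D) (hb0 : IsCoprime b0 D)
    (hgh : D = g * h) (hge : g ∣ a * b0 - a0 * b) (hhf : h ∣ a * b0 + a0 * b) :
    IsCoprime g h := by
  apply isCoprime_of_prime_dvd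
  · rintro ⟨h1, h2⟩
    apply hD0
    rw [hgh, h1]; ring
  · intro z hz hzg hzh
    have hzD : z ∣ D := by rw [hgh]; exact hzg.mul_right _
    have h1 : z ∣ 2 * (a * b0) := by
      have : 2 * (a * b0) = (a * b0 - a0 * b) + (a * b0 + a0 * b) := by ring
      rw [this]
      exact dvd_add (hzg.trans hge) (hzh.trans hhf)
    have n2 : ¬ z ∣ 2 := by
      intro h2
      obtain ⟨k, hk⟩ := hD
      have : z ∣ 1 := by
        have h3 : (1 : ℤ) = D - 2 * k := by rw [hk]; ring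
        rw [h3]
        exact dvd_sub hzD (h2.mul_right _)
      exact hz.not_isUnit (isUnit_of_dvd_one this)
    have nb : ∀ y : ℤ, IsCoprime y D → ¬ z ∣ y := by
      intro y hy hzy
      exact hz.not_isUnit (hy.isUnit_of_dvd' hzy hzD)
    rcases hz.dvd_or_dvd h1 with h2 | h2
    · exact n2 h2
    · rcases hz.dvd_or_dvd h2 with h3 | h3
      · have h4 : z ∣ 2 * b ^ 2 := by
          have : 2 * b ^ 2 = a * a - D := by rw [← hab]; ring
          rw [this]
          exact dvd_sub (h3.mul_right _) hzD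
        rcases hz.dvd_or_dvd h4 with h5 | h5
        · exact n2 h5
        · exact nb b hb (hz.dvd_of_dvd_pow h5)
      · exact nb b0 hb0 h3

theorem key {D a b a' b' a0 b0 : ℤ} (hD : Odd D)
    (h : a ^ 2 - 2 * b ^ 2 = D) (h' : a' ^ 2 - 2 * b' ^ 2 = D) (h0 : a0 ^ 2 - 2 * b0 ^ 2 = D)
    (hb : IsCoprime b D) (hb0 : IsCoprime b0 D)
    (hg : Int.gcd (a * b0 - a0 * b) D = Int.gcd (a' * b0 - a0 * b') D) :
    D ∣ a * b' - a' * b := by
  have hD0 : D ≠ 0 := by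
    rintro rfl
    simp at hD
  obtain ⟨k, hk⟩ : ((Int.gcd (a * b0 - a0 * b) D : ℕ) : ℤ) ∣ D := Int.gcd_dvd_right _ _
  have hge : ((Int.gcd (a * b0 - a0 * b) D : ℕ) : ℤ) ∣ a * b0 - a0 * b := Int.gcd_dvd_left _ _
  have hge' : ((Int.gcd (a * b0 - a0 * b) D : ℕ) : ℤ) ∣ a' * b0 - a0 * b' := by
    rw [hg]; exact Int.gcd_dvd_left _ _
  have d1 : D ∣ (a * b0 - a0 * b) * (a * b0 + a0 * b) := by
    refine ⟨b0 ^ 2 - b ^ 2, ?_⟩
    have e1 : a ^ 2 = D + 2 * b ^ 2 := by linarith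
    have e2 : a0 ^ 2 = D + 2 * b0 ^ 2 := by linarith
    calc (a * b0 - a0 * b) * (a * b0 + a0 * b) = a ^ 2 * b0 ^ 2 - a0 ^ 2 * b ^ 2 := by ring
      _ = _ := by rw [e1, e2]; ring
  have d2 : D ∣ (a' * b0 - a0 * b') * (a' * b0 + a0 * b') := by
    refine ⟨b0 ^ 2 - b' ^ 2, ?_⟩
    have e1 : a' ^ 2 = D + 2 * b' ^ 2 := by linarith
    have e2 : a0 ^ 2 = D + 2 * b0 ^ 2 := by linarith
    calc (a' * b0 - a0 * b') * (a' * b0 + a0 * b') = a' ^ 2 * b0 ^ 2 - a0 ^ 2 * b' ^ 2 := by ring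
      _ = _ := by rw [e1, e2]; ring
  have hkf : k ∣ a * b0 + a0 * b := quo_dvd hD0 d1 rfl hk
  have hkf' : k ∣ a' * b0 + a0 * b' := quo_dvd hD0 d2 (by rw [hg]) hk
  have hc := cop_gh hD hD0 h hb hb0 hk hge hkf
  have hb0g : IsCoprime b0 ((Int.gcd (a * b0 - a0 * b) D : ℕ) : ℤ) := by
    refine IsCoprime.of_isCoprime_of_dvd_right hb0 ?_
    exact Int.gcd_dvd_right _ _
  have hb0k : IsCoprime b0 k := by
    refine IsCoprime.of_isCoprime_of_dvd_right hb0 ?_
    exact ⟨_, hk.trans (mul_comm _ _)⟩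
  have g1 : ((Int.gcd (a * b0 - a0 * b) D : ℕ) : ℤ) ∣ a * b' - a' * b := by
    have : ((Int.gcd (a * b0 - a0 * b) D : ℕ) : ℤ) ∣ b0 * (a * b' - a' * b) := by
      have e : b0 * (a * b' - a' * b) = (a * b0 - a0 * b) * b' - (a' * b0 - a0 * b') * b := by ring
      rw [e]
      exact dvd_sub (hge.mul_right _) (hge'.mul_right _)
    exact hb0g.symm.dvd_of_dvd_mul_left this
  have g2 : k ∣ a * b' - a' * b := by
    have : k ∣ b0 * (a * b' - a' * b) := by
      have e : b0 * (a * b' - a' * b) = (a * b0 + a0 * b) * b' - (a' * b0 + a0 * b') * b := by ring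
      rw [e]
      exact dvd_sub (hkf.mul_right _) (hkf'.mul_right _)
    exact hb0k.symm.dvd_of_dvd_mul_left this
  have := hc.mul_dvd g1 g2
  rw [← hk] at this
  exact this

theorem sc2 : SC2 := by
  classical
  intro D A hD
  have hD0 : D ≠ 0 := by
    rintro rfl
    simp at hD
  rcases (Prim D A).eq_empty_or_nonempty with he | ⟨p0, hp0⟩
  · rw [he]; simp
  have memP : ∀ p : ℤ × ℤ, p ∈ Prim D A → (|p.1| ≤ (A : ℤ) ∧ |p.2| ≤ (A : ℤ)) ∧
      p.1 ^ 2 - 2 * p.2 ^ 2 = D ∧ Int.gcd p.1 p.2 = 1 := by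
    intro p hp
    simp only [Prim, Sol, mem_filter, mem_product, mem_Icc] at hp
    exact ⟨⟨abs_le.2 hp.1.1.1, abs_le.2 hp.1.1.2⟩, hp.1.2, hp.2⟩
  obtain ⟨-, q0, g0⟩ := memP p0 hp0
  have hb0 := cop_b q0 g0
  let φ : ℤ × ℤ → ℕ := fun p => Int.gcd (p.1 * p0.2 - p0.1 * p.2) D
  have himg : ((Prim D A).image φ).card ≤ D.natAbs.divisors.card := by
    apply card_le_card
    intro x hx
    obtain ⟨p, -, rfl⟩ := mem_image.1 hx
    rw [Nat.mem_divisors]
    refine ⟨?_, by simpa using hD0⟩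
    exact Int.natCast_dvd.1 (Int.gcd_dvd_right _ _)
  have hfib : ∀ x ∈ (Prim D A).image φ, ((Prim D A).filter (fun p => φ p = x)).card
      ≤ (Sol 1 (3 * A ^ 2)).card := by
    intro x hx
    obtain ⟨p1, hp1, rfl⟩ := mem_image.1 hx
    obtain ⟨bd1, q1, g1⟩ := memP p1 hp1
    have hb1 := cop_b q1 g1
    have hdv : ∀ p ∈ (Prim D A).filter (fun p => φ p = φ p1),
        D ∣ p.1 * p1.1 - 2 * p.2 * p1.2 ∧ D ∣ p1.1 * p.2 - p.1 * p1.2 := by
      intro p hp
      obtain ⟨hp, hφ⟩ := mem_filter.1 hp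
      obtain ⟨bd, q, g⟩ := memP p hp
      have hb := cop_b q g
      have hk : D ∣ p.1 * p1.2 - p1.1 * p.2 := key hD q q1 q0 hb hb0 hφ
      have hk' : D ∣ p1.1 * p.2 - p.1 * p1.2 := by
        have := (dvd_neg (a := D)).2 hk
        rwa [neg_sub] at this
      refine ⟨?_, hk'⟩
      have : D ∣ p1.2 * (p.1 * p1.1 - 2 * p.2 * p1.2) := by
        have e : p1.2 * (p.1 * p1.1 - 2 * p.2 * p1.2)
            = (p.1 * p1.2 - p1.1 * p.2) * p1.1 + p.2 * (p1.1 ^ 2 - 2 * p1.2 ^ 2) := by ring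
        rw [e, q1]
        exact dvd_add (hk.mul_right _) (dvd_mul_left _ _)
      exact hb1.symm.dvd_of_dvd_mul_left this
    refine card_le_card_of_injOn
      (fun p => ((p.1 * p1.1 - 2 * p.2 * p1.2) / D, (p1.1 * p.2 - p.1 * p1.2) / D)) ?_ ?_
    · intro p hp
      have hp' : p ∈ (Prim D A).filter (fun p => φ p = φ p1) := by simpa using hp
      obtain ⟨⟨u, hu⟩, ⟨v, hv⟩⟩ := hdv p hp'
      obtain ⟨bd, q, g⟩ := memP p (mem_filter.1 hp').1
      have eu : (p.1 * p1.1 - 2 * p.2 * p1.2) / D = u := by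
        rw [hu]; exact Int.mul_ediv_cancel_left _ hD0
      have ev : (p1.1 * p.2 - p.1 * p1.2) / D = v := by
        rw [hv]; exact Int.mul_ediv_cancel_left _ hD0
      have h1 : u ^ 2 - 2 * v ^ 2 = 1 := by
        have : D ^ 2 * (u ^ 2 - 2 * v ^ 2) = D ^ 2 * 1 := by
          calc D ^ 2 * (u ^ 2 - 2 * v ^ 2) = (D * u) ^ 2 - 2 * (D * v) ^ 2 := by ring
            _ = (p.1 ^ 2 - 2 * p.2 ^ 2) * (p1.1 ^ 2 - 2 * p1.2 ^ 2) := by rw [← hu, ← hv]; ring
            _ = D ^ 2 * 1 := by rw [q, q1]; ring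
        exact mul_left_cancel₀ (pow_ne_zero 2 hD0) this
      have hD1 : 1 ≤ |D| := Int.one_le_abs hD0
      have hA2 : |p.1| * |p1.1| ≤ (A : ℤ) ^ 2 := by
        rw [pow_two]; exact mul_le_mul bd.1 bd1.1 (abs_nonneg _) (by positivity)
      have hA3 : |p.2| * |p1.2| ≤ (A : ℤ) ^ 2 := by
        rw [pow_two]; exact mul_le_mul bd.2 bd1.2 (abs_nonneg _) (by positivity)
      have hA4 : |p1.1| * |p.2| ≤ (A : ℤ) ^ 2 := by
        rw [pow_two]; exact mul_le_mul bd1.1 bd.2 (abs_nonneg _) (by positivity)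
      have hA5 : |p.1| * |p1.2| ≤ (A : ℤ) ^ 2 := by
        rw [pow_two]; exact mul_le_mul bd.1 bd1.2 (abs_nonneg _) (by positivity)
      have bu : |u| ≤ 3 * (A : ℤ) ^ 2 := by
        have h2 : |D * u| ≤ 3 * (A : ℤ) ^ 2 := by
          rw [← hu]
          calc |p.1 * p1.1 - 2 * p.2 * p1.2| ≤ |p.1 * p1.1| + |2 * p.2 * p1.2| := abs_sub _ _
            _ = |p.1| * |p1.1| + 2 * (|p.2| * |p1.2|) := by
                rw [abs_mul, abs_mul, abs_mul]; norm_num; ring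
            _ ≤ _ := by linarith
        rw [abs_mul] at h2
        nlinarith [abs_nonneg u]
      have bv : |v| ≤ 3 * (A : ℤ) ^ 2 := by
        have h2 : |D * v| ≤ 3 * (A : ℤ) ^ 2 := by
          rw [← hv]
          calc |p1.1 * p.2 - p.1 * p1.2| ≤ |p1.1 * p.2| + |p.1 * p1.2| := abs_sub _ _
            _ = |p1.1| * |p.2| + |p.1| * |p1.2| := by rw [abs_mul, abs_mul]
            _ ≤ _ := by nlinarith [sq_nonneg (A : ℤ)]
        rw [abs_mul] at h2
        nlinarith [abs_nonneg v]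
      simp only [Sol, coe_filter, mem_product, mem_Icc, Set.mem_ofPred_eq]
      rw [eu, ev]
      refine ⟨⟨?_, ?_⟩, h1⟩
      · push_cast; exact abs_le.1 bu
      · push_cast; exact abs_le.1 bv
    · intro p hp p' hp' heq
      have hpm : p ∈ (Prim D A).filter (fun p => φ p = φ p1) := by simpa using hp
      have hpm' : p' ∈ (Prim D A).filter (fun p => φ p = φ p1) := by simpa using hp'
      obtain ⟨⟨u, hu⟩, ⟨v, hv⟩⟩ := hdv p hpm
      obtain ⟨⟨u', hu'⟩, ⟨v', hv'⟩⟩ := hdv p' hpm'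
      simp only [Prod.mk.injEq] at heq
      obtain ⟨h1, h2⟩ := heq
      rw [hu, hu', Int.mul_ediv_cancel_left _ hD0, Int.mul_ediv_cancel_left _ hD0] at h1
      rw [hv, hv', Int.mul_ediv_cancel_left _ hD0, Int.mul_ediv_cancel_left _ hD0] at h2
      subst h1 h2
      have e1 : D * p.1 = D * p'.1 := by
        calc D * p.1 = p1.1 * (p.1 * p1.1 - 2 * p.2 * p1.2) + 2 * p1.2 * (p1.1 * p.2 - p.1 * p1.2) := by
              rw [← q1]; ring
          _ = p1.1 * (p'.1 * p1.1 - 2 * p'.2 * p1.2) + 2 * p1.2 * (p1.1 * p'.2 - p'.1 * p1.2) := by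
              rw [hu, hv, hu', hv']
          _ = D * p'.1 := by rw [← q1]; ring
      have e2 : D * p.2 = D * p'.2 := by
        calc D * p.2 = p1.2 * (p.1 * p1.1 - 2 * p.2 * p1.2) + p1.1 * (p1.1 * p.2 - p.1 * p1.2) := by
              rw [← q1]; ring
          _ = p1.2 * (p'.1 * p1.1 - 2 * p'.2 * p1.2) + p1.1 * (p1.1 * p'.2 - p'.1 * p1.2) := by
              rw [hu, hv, hu', hv']
          _ = D * p'.2 := by rw [← q1]; ring
      exact Prod.ext (mul_left_cancel₀ hD0 e1) (mul_left_cancel₀ hD0 e2)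
  calc (Prim D A).card ≤ (Sol 1 (3 * A ^ 2)).card * ((Prim D A).image φ).card :=
        card_le_mul_card_image _ _ hfib
    _ ≤ (Sol 1 (3 * A ^ 2)).card * D.natAbs.divisors.card := Nat.mul_le_mul_left _ himg
    _ = _ := mul_comm _ _

end Pool.Agent.TH808.CT
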